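import Pool.Agent.Lib.MP_a31e1e_gt.Interfaces

/-!
# Module SIGREG of project TIGHT
-/

open scoped ContDiff Topology
open Set Metric Filter

namespace Pool.Agent.Tight.H19

theorem tt_eq (x : E3) : tt x = 4 * (ell 0 x * ell 1 x * ell 2 x) := by
  have h3 : √3 ^ 2 = (3 : ℝ) := Real.sq_sqrt (by norm_num)
  simp only [tt, nn, cc, ell]
  linear_combination (1 - x 1) * x 0 ^ 2 * h3

/-- products of two of the linear functions, in terms of the third one and of `N` -/
theorem pair0 (x : E3) : ell 1 x * ell 2 x = 1 + (1 - ell 0 x) + (1 - ell 0 x) ^ 2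
    - 3 / 4 * nn x := by
  have h3 : √3 ^ 2 = (3 : ℝ) := Real.sq_sqrt (by norm_num)
  simp only [nn, ell]
  linear_combination (-(x 0 ^ 2) / 4) * h3

theorem pair1 (x : E3) : ell 2 x * ell 0 x = 1 + (1 - ell 1 x) + (1 - ell 1 x) ^ 2
    - 3 / 4 * nn x := by
  have h3 : √3 ^ 2 = (3 : ℝ) := Real.sq_sqrt (by norm_num)
  simp only [nn, ell]
  linear_combination (-(x 0 ^ 2) / 4) * h3

theorem pair2 (x : E3) : ell 0 x * ell 1 x = 1 + (1 - ell 2 x) + (1 - ell 2 x) ^ 2
    - 3 / 4 * nn x := by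
  have h3 : √3 ^ 2 = (3 : ℝ) := Real.sq_sqrt (by norm_num)
  simp only [nn, ell]
  linear_combination (-(x 0 ^ 2) / 4) * h3

theorem nn_nonneg (x : E3) : 0 ≤ nn x := by
  unfold nn
  positivity

theorem nn_le_four_of_prism {x : E3} (hx : x ∈ Prism) : nn x ≤ 4 := by
  have h0 := hx 0
  have h1 := hx 1
  have h2 := hx 2
  have e0 := pair0 x
  have e1 := pair1 x
  have e2 := pair2 x
  have hs : ell 0 x + ell 1 x + ell 2 x = 3 := by
    simp only [ell]
    ring
  have p0 := mul_nonneg h1 h2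
  have p1 := mul_nonneg h2 h0
  have p2 := mul_nonneg h0 h1
  have hsum : nn x = 4 - 4 / 3 * (ell 1 x * ell 2 x + ell 2 x * ell 0 x + ell 0 x * ell 1 x) := by
    have h3 : √3 ^ 2 = (3 : ℝ) := Real.sq_sqrt (by norm_num)
    simp only [nn, ell]
    linear_combination (-(x 0 ^ 2) / 3) * h3
  rw [hsum]
  linarith

/-- `tt < 0` in the disc outside of the closed triangle -/
theorem tt_neg_aux {l p s : ℝ} (hl : l < 0) (hs : s = 1 - l) {n : ℝ} (hn : n ≤ 4)
    (hp : p = 1 + s + s ^ 2 - 3 / 4 * n) : l * p < 0 := by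
  have h1 : 1 < s := by linarith
  have h2 : 0 < p := by nlinarith
  exact mul_neg_of_neg_of_pos hl h2

theorem prism_of {x : E3} (ht : 0 ≤ tt x) (hn : nn x ≤ 4) : x ∈ Prism := by
  rw [tt_eq] at ht
  intro j
  by_contra hj
  push Not at hj
  fin_cases j
  · have := tt_neg_aux (l := ell 0 x) (s := 1 - ell 0 x) hj rfl hn (pair0 x)
    nlinarith
  · have := tt_neg_aux (l := ell 1 x) (s := 1 - ell 1 x) hj rfl hn (pair1 x)
    nlinarith
  · have := tt_neg_aux (l := ell 2 x) (s := 1 - ell 2 x) hj rfl hn (pair2 x)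
    nlinarith

theorem tt_nonpos_of_four {x : E3} (hn : nn x = 4) : tt x ≤ 0 := by
  rw [tt_eq]
  have e0 := pair0 x
  rw [hn] at e0
  have h1 : -2 ≤ x 1 := by
    have : x 1 ^ 2 ≤ 4 := by
      have h := hn
      unfold nn at h
      nlinarith [sq_nonneg (x 0)]
    nlinarith
  have e1 : ell 0 x = 1 - x 1 := rfl
  have e2 : ell 0 x * ell 1 x * ell 2 x = ell 0 x * (ell 1 x * ell 2 x) := by ring
  rw [e2, e0, e1]
  nlinarith [mul_nonneg (sq_nonneg (1 - x 1)) (by linarith : (0 : ℝ) ≤ x 1 + 2)]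

theorem nn_lt_four {x : E3} (hF : FS x = 0) (hn : nn x ≤ 4) : nn x < 4 := by
  rcases lt_or_eq_of_le hn with h | h
  · exact h
  · exfalso
    have h1 := tt_nonpos_of_four h
    unfold FS at hF
    have h2 : mm x = x 2 ^ 2 + 3 := by
      unfold mm
      rw [h]
      ring
    nlinarith [sq_nonneg (x 2), sq_nonneg (mm x)]

theorem tt_nonneg_of_FS {x : E3} (hF : FS x = 0) : 0 ≤ tt x := by
  unfold FS at hF
  nlinarith [sq_nonneg (mm x)]

theorem abs_mm {x : E3} (hF : FS x = 0) : mm x = 4 * √(tt x) ∨ mm x = -(4 * √(tt x)) := by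
  have ht := tt_nonneg_of_FS hF
  have h2 : mm x ^ 2 = (4 * √(tt x)) ^ 2 := by
    rw [mul_pow, Real.sq_sqrt ht]
    unfold FS at hF
    linarith
  exact sq_eq_sq_iff_eq_or_eq_neg.1 h2

theorem Lam_nonpos {x : E3} (hF : FS x = 0) : Lam x ≤ 0 := by
  have hs := Real.sqrt_nonneg (tt x)
  unfold Lam
  rcases abs_mm hF with h | h <;> linarith

theorem cc_sq (x : E3) : cc x ^ 2 ≤ nn x ^ 3 := by
  have : nn x ^ 3 - cc x ^ 2 = dd x ^ 2 := by
    unfold nn cc dd
    ring
  nlinarith [sq_nonneg (dd x)]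

theorem tt_le_four {x : E3} (hn : nn x ≤ 4) : tt x ≤ 4 := by
  have h0 := nn_nonneg x
  have h1 : cc x ^ 2 ≤ (2 * nn x) ^ 2 := by
    have := cc_sq x
    nlinarith [mul_nonneg (mul_nonneg h0 h0) (by linarith : (0 : ℝ) ≤ 4 - nn x)]
  have h2 : -(2 * nn x) ≤ cc x := (abs_le_of_sq_le_sq' h1 (by linarith)).1
  unfold tt
  linarith

theorem norm_sq_eq (x : E3) : ‖x‖ ^ 2 = nn x + x 2 ^ 2 := by
  rw [EuclideanSpace.real_norm_sq_eq, Fin.sum_univ_three]
  rfl

theorem norm_le_of_mm {x : E3} (hn : nn x ≤ 4) (hm : mm x ≤ 8) : ‖x‖ ≤ 5 := by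
  have h0 := nn_nonneg x
  have h1 := norm_sq_eq x
  unfold mm at hm
  have h2 : ‖x‖ ^ 2 ≤ 5 ^ 2 := by linarith
  exact abs_le_of_sq_le_sq' h2 (by norm_num) |>.2

theorem sqrt_tt_le {x : E3} (hn : nn x ≤ 4) : √(tt x) ≤ 2 := by
  rw [Real.sqrt_le_left (by norm_num)]
  have := tt_le_four hn
  linarith

/-! ### the gradient -/

theorem contDiff_FS : ContDiff ℝ ∞ FS := by
  unfold FS mm tt nn cc
  fun_prop

theorem poly_deriv (c0 c1 c2 c3 c4 : ℝ) :
    HasDerivAt (fun t : ℝ => c0 + c1 * t + c2 * t ^ 2 + c3 * t ^ 3 + c4 * t ^ 4) c1 0 := by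
  have h1 : HasDerivAt (fun t : ℝ => c1 * t) c1 0 := by
    simpa using (hasDerivAt_id (0 : ℝ)).const_mul c1
  have h2 : HasDerivAt (fun t : ℝ => c2 * t ^ 2) 0 0 := by
    simpa using (hasDerivAt_pow 2 (0 : ℝ)).const_mul c2
  have h3 : HasDerivAt (fun t : ℝ => c3 * t ^ 3) 0 0 := by
    simpa using (hasDerivAt_pow 3 (0 : ℝ)).const_mul c3
  have h4 : HasDerivAt (fun t : ℝ => c4 * t ^ 4) 0 0 := by
    simpa using (hasDerivAt_pow 4 (0 : ℝ)).const_mul c4
  have h := (((h1.const_add c0).add h2).add h3).add h4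
  simp only [add_zero] at h
  exact h

theorem line_deriv (x u : E3) {c0 c1 c2 c3 c4 : ℝ}
    (h : ∀ t : ℝ, FS (x + t • u) = c0 + c1 * t + c2 * t ^ 2 + c3 * t ^ 3 + c4 * t ^ 4) :
    fderiv ℝ FS x u = c1 := by
  have hd : HasFDerivAt FS (fderiv ℝ FS x) x :=
    ((contDiff_FS.differentiable (by simp)) x).hasFDerivAt
  have h2 : HasDerivAt (fun t : ℝ => x + t • u) u 0 := by
    simpa using ((hasDerivAt_id (0 : ℝ)).smul_const u).const_add x
  have hd' : HasFDerivAt FS (fderiv ℝ FS x) (x + (0 : ℝ) • u) := by simpa using hd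
  have h3 := hd'.comp_hasDerivAt (0 : ℝ) h2
  have h4 : (FS ∘ fun t : ℝ => x + t • u)
      = fun t : ℝ => c0 + c1 * t + c2 * t ^ 2 + c3 * t ^ 3 + c4 * t ^ 4 := funext h
  rw [h4] at h3
  exact h3.unique (poly_deriv c0 c1 c2 c3 c4)

theorem coord (x : E3) (t : ℝ) (i j : Fin 3) :
    (x + t • EuclideanSpace.single i (1 : ℝ)) j = x j + if j = i then t else 0 := by
  rw [PiLp.add_apply, PiLp.smul_apply, PiLp.single_apply]
  split_ifs <;> simp

theorem fderiv_FS_0 (x : E3) : fderiv ℝ FS x (EuclideanSpace.single 0 1) = gFS x 0 := by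
  refine line_deriv x _ (c0 := FS x) (c2 := 36 * x 0 ^ 2 + 6 * mm x - 48 * x 1 + 48)
    (c3 := 36 * x 0) (c4 := 9) fun t => ?_
  simp only [FS, gFS, mm, tt, nn, cc, coord, Fin.reduceEq, if_true, if_false, add_zero]
  ring

theorem fderiv_FS_1 (x : E3) : fderiv ℝ FS x (EuclideanSpace.single 1 1) = gFS x 1 := by
  refine line_deriv x _ (c0 := FS x) (c2 := 36 * x 1 ^ 2 + 6 * mm x + 48 + 48 * x 1)
    (c3 := 36 * x 1 + 16) (c4 := 9) fun t => ?_
  simp only [FS, gFS, mm, tt, nn, cc, coord, Fin.reduceEq, if_true, if_false, add_zero]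
  ring

theorem fderiv_FS_2 (x : E3) : fderiv ℝ FS x (EuclideanSpace.single 2 1) = gFS x 2 := by
  refine line_deriv x _ (c0 := FS x) (c2 := 4 * x 2 ^ 2 + 2 * mm x)
    (c3 := 4 * x 2) (c4 := 1) fun t => ?_
  simp only [FS, gFS, mm, tt, nn, cc, coord, Fin.reduceEq, if_true, if_false, add_zero]
  ring

theorem fderiv_FS_ne_zero {x : E3} (hF : FS x = 0) (hn : nn x ≤ 4) : fderiv ℝ FS x ≠ 0 := by
  intro h0
  have hlt := nn_lt_four hF hn
  have g0 : gFS x 0 = 0 := by rw [← fderiv_FS_0, h0]; rfl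
  have g1 : gFS x 1 = 0 := by rw [← fderiv_FS_1, h0]; rfl
  have g2 : gFS x 2 = 0 := by rw [← fderiv_FS_2, h0]; rfl
  simp only [gFS] at g0 g1 g2
  have hm : mm x = x 2 ^ 2 + 3 * nn x - 9 := rfl
  have hN : nn x = x 0 ^ 2 + x 1 ^ 2 := rfl
  have ht : tt x = 4 - 3 * nn x - cc x := rfl
  have hc : cc x = x 1 ^ 3 - 3 * x 0 ^ 2 * x 1 := rfl
  have hFS : mm x ^ 2 - 16 * tt x = 0 := hF
  generalize x 0 = a at *
  generalize x 1 = b at *
  generalize x 2 = w at *
  generalize mm x = m at *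
  generalize nn x = n at *
  generalize tt x = t at *
  generalize cc x = c at *
  subst hN
  subst hc
  subst ht
  rcases mul_eq_zero.1 (by linarith [g2] : m * w = 0) with h | h
  · -- `m = 0`
    rw [h] at g0 g1 hFS
    rcases mul_eq_zero.1 (by linarith : a * (1 - b) = 0) with ha | hb
    · subst ha
      rcases mul_eq_zero.1 (by linarith : b * (b + 2) = 0) with hb | hb
      · subst hb
        norm_num at hFS
      · have : b = -2 := by linarith
        subst this
        norm_num at hlt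
    · have : b = 1 := by linarith
      subst this
      have : a ^ 2 = 3 := by linarith
      nlinarith
  · -- `w = 0`
    subst h
    rcases mul_eq_zero.1 (by linarith : a * (m + 8 - 8 * b) = 0) with ha | hb
    · subst ha
      rcases mul_eq_zero.1 (by nlinarith : b * (m + 8 + 4 * b) = 0) with hb | hb
      · subst hb
        norm_num at hm
        rw [hm] at hFS
        norm_num at hFS
      · have hm' : m = -8 - 4 * b := by linarith
        rw [hm'] at hFS
        have h5 : (b + 2) ^ 2 * b = 0 := by nlinarith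
        rcases mul_eq_zero.1 h5 with h6 | h6
        · have : b = -2 := by
            have := pow_eq_zero_iff (n := 2) (by norm_num) |>.1 h6
            linarith
          subst this
          norm_num at hlt
        · subst h6
          norm_num at hm hm'
          linarith
    · have hm' : m = 8 * b - 8 := by linarith
      rw [hm'] at g1 hFS hm
      have ha2 : a ^ 2 = 3 * b ^ 2 := by nlinarith
      have h5 : (b - 1) ^ 2 * b = 0 := by
        have : a ^ 2 * b = 3 * b ^ 3 := by rw [ha2]; ring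
        nlinarith
      rcases mul_eq_zero.1 h5 with h6 | h6
      · have : b = 1 := by
          have := pow_eq_zero_iff (n := 2) (by norm_num) |>.1 h6
          linarith
        subst this
        nlinarith
      · subst h6
        nlinarith

theorem sigReg : SigRegStatement := by
  refine ⟨tt_eq, ?_, ?_, ?_, ?_, ?_, ?_, ?_⟩
  · intro x hF hn
    exact ⟨prism_of (tt_nonneg_of_FS hF) hn, nn_lt_four hF hn, Lam_nonpos hF⟩
  · intro x hx hF
    exact nn_lt_four hF (nn_le_four_of_prism hx)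
  · intro x hx hL
    have ht : 0 ≤ tt x := by
      rw [tt_eq]
      have := mul_nonneg (mul_nonneg (hx 0) (hx 1)) (hx 2)
      linarith
    have h1 : mm x = 4 * √(tt x) := by
      unfold Lam at hL
      linarith
    refine ⟨?_, ?_⟩
    · unfold FS
      rw [h1, mul_pow, Real.sq_sqrt ht]
      ring
    · rw [h1]
      positivity
  · intro x hF hn
    exact fderiv_FS_ne_zero hF hn
  · intro x hF hn
    refine norm_le_of_mm hn ?_
    have h1 := sqrt_tt_le hn
    have h2 := Real.sqrt_nonneg (tt x)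
    rcases abs_mm hF with h | h <;> linarith
  · intro x hx
    have hn := nn_le_four_of_prism hx.1
    refine norm_le_of_mm hn ?_
    have h1 := sqrt_tt_le hn
    have h2 := hx.2
    unfold Lam at h2
    linarith
  · intro x hF _
    unfold qq qo
    have hm : mm x = x 2 ^ 2 + 3 * nn x - 9 := rfl
    rcases abs_mm hF with h | h
    · right
      linarith
    · left
      linarith

end Pool.Agent.Tight.H19
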