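import Pool.Agent.Lib.MP_a31e1e_gt.Interfaces

/-!
# Modules STRONGPERT and ESCAPEPERT of project TIGHT
-/

open scoped ContDiff Topology RealInnerProductSpace
open Set Metric Filter

namespace Pool.Agent.Tight.H19

section general

variable {E F G : Type*} [NormedAddCommGroup E] [NormedSpace ℝ E] [NormedAddCommGroup F]
  [NormedSpace ℝ F] [NormedAddCommGroup G] [NormedSpace ℝ G]

/-- the chain rule for second derivatives -/
theorem D2_comp {ψ : F → G} {Y : E → F} {a : E} (hψ : ContDiffAt ℝ 2 ψ (Y a))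
    (hY : ContDiffAt ℝ 2 Y a) (u : E) :
    D2 (ψ ∘ Y) a u u = D2 ψ (Y a) (fderiv ℝ Y a u) (fderiv ℝ Y a u)
      + fderiv ℝ ψ (Y a) (D2 Y a u u) := by
  have hYd : ∀ᶠ b in 𝓝 a, DifferentiableAt ℝ Y b :=
    (hY.eventually (by simp)).mono fun b hb => hb.differentiableAt (by simp)
  have hψd : ∀ᶠ b in 𝓝 a, DifferentiableAt ℝ ψ (Y b) :=
    hY.continuousAt.eventually
      ((hψ.eventually (by simp)).mono fun b hb => hb.differentiableAt (by simp))
  have h2 : fderiv ℝ (ψ ∘ Y) =ᶠ[𝓝 a] fun b => (fderiv ℝ ψ (Y b)).comp (fderiv ℝ Y b) := by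
    filter_upwards [hYd, hψd] with b h1 h2
    exact fderiv_comp b h2 h1
  have hc : HasFDerivAt (fun b => fderiv ℝ ψ (Y b))
      ((fderiv ℝ (fderiv ℝ ψ) (Y a)).comp (fderiv ℝ Y a)) a := by
    have h3 : HasFDerivAt (fderiv ℝ ψ) (fderiv ℝ (fderiv ℝ ψ) (Y a)) (Y a) :=
      ((hψ.fderiv_right (m := 1) (by norm_num)).differentiableAt (by simp)).hasFDerivAt
    exact h3.comp a (hY.differentiableAt (by simp)).hasFDerivAt
  have hd : HasFDerivAt (fderiv ℝ Y) (fderiv ℝ (fderiv ℝ Y) a) a :=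
    ((hY.fderiv_right (m := 1) (by norm_num)).differentiableAt (by simp)).hasFDerivAt
  have h4 := (hc.clm_comp hd).fderiv
  unfold D2
  rw [h2.fderiv_eq, h4]
  simp only [add_apply, ContinuousLinearMap.comp_apply,
    ContinuousLinearMap.compL_apply, ContinuousLinearMap.flip_apply]
  rw [add_comm]

/-- necessary condition of second order -/
theorem D2_nonpos_of_isLocalMax {g : E → ℝ} {a : E} (hg : ContDiffAt ℝ 2 g a)
    (hmax : IsLocalMax g a) (u : E) : D2 g a u u ≤ 0 := by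
  by_contra hpos
  push Not at hpos
  have hgd : ∀ᶠ b in 𝓝 a, DifferentiableAt ℝ g b :=
    (hg.eventually (by simp)).mono fun b hb => hb.differentiableAt (by simp)
  have hL : ∀ t : ℝ, HasDerivAt (fun t : ℝ => a + t • u) u t := by
    intro t
    simpa using ((hasDerivAt_id t).smul_const u).const_add a
  have hLc : Tendsto (fun t : ℝ => a + t • u) (𝓝 0) (𝓝 a) := by
    have h := (hL 0).continuousAt.tendsto
    simpa using h
  set k : ℝ → ℝ := fun t => g (a + t • u) with hk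
  have hk1 : deriv k =ᶠ[𝓝 0] fun t => fderiv ℝ g (a + t • u) u := by
    filter_upwards [hLc.eventually hgd] with t ht
    exact (ht.hasFDerivAt.comp_hasDerivAt t (hL t)).deriv
  have hk2 : deriv (deriv k) 0 = D2 g a u u := by
    rw [hk1.deriv_eq]
    have h3 : HasFDerivAt (fderiv ℝ g) (fderiv ℝ (fderiv ℝ g) a) (a + (0 : ℝ) • u) := by
      have := ((hg.fderiv_right (m := 1) (by norm_num)).differentiableAt (by simp)).hasFDerivAt
      simpa using this
    have h4 := h3.comp_hasDerivAt (0 : ℝ) (hL 0)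
    have h5 := h4.clm_apply (hasDerivAt_const (0 : ℝ) u)
    have h6 := h5.deriv
    simp only [Function.comp_apply, map_zero, add_zero] at h6
    exact h6
  have hk0 : deriv k 0 = 0 := by
    rw [hk1.eq_of_nhds]
    have : fderiv ℝ g a = 0 := hmax.fderiv_eq_zero
    simp [this]
  have hkc : ContinuousAt k 0 := by
    have h1 : ContinuousAt g (a + (0 : ℝ) • u) := by simpa using hg.continuousAt
    exact ContinuousAt.comp (f := fun t : ℝ => a + t • u) h1 (hL 0).continuousAt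
  have hmin : IsLocalMin k 0 := isLocalMin_of_deriv_deriv_pos (by rw [hk2]; exact hpos) hk0 hkc
  have hmaxk : IsLocalMax k 0 := by
    have h1 : ∀ᶠ t in 𝓝 (0 : ℝ), g (a + t • u) ≤ g a := hLc.eventually hmax
    filter_upwards [h1] with t ht
    simpa [hk] using ht
  have hconst : k =ᶠ[𝓝 0] fun _ => k 0 := by
    filter_upwards [hmin, hmaxk] with t h1 h2
    exact le_antisymm h2 h1
  have hd1 : deriv k =ᶠ[𝓝 0] fun _ => (0 : ℝ) := by
    have := hconst.deriv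
    filter_upwards [this] with t ht
    rw [ht]
    simp
  have : deriv (deriv k) 0 = 0 := by
    rw [hd1.deriv_eq]
    simp
  rw [hk2] at this
  exact hpos.ne' this

end general

theorem inner_D2 {Y : E2 → E3} {a : E2} (hY : ContDiffAt ℝ 2 Y a) (v : E3) (u : E2) :
    D2 (fun b => ⟪v, Y b⟫) a u u = ⟪v, D2 Y a u u⟫ := by
  have h := D2_comp (ψ := fun y : E3 => ⟪v, y⟫) (Y := Y) (a := a)
    ((innerSL ℝ v).contDiff.contDiffAt) hY u
  have h1 : ∀ y, fderiv ℝ (fun y : E3 => ⟪v, y⟫) y = innerSL ℝ v := fun y =>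
    (innerSL ℝ v).fderiv
  have h2 : fderiv ℝ (fun y : E3 => ⟪v, y⟫) = fun _ => innerSL ℝ v := funext h1
  have h3 : D2 (fun y : E3 => ⟪v, y⟫) (Y a) (fderiv ℝ Y a u) (fderiv ℝ Y a u) = 0 := by
    unfold D2
    rw [h2]
    simp
  rw [h3, h1, zero_add] at h
  exact h

theorem strongPert : StrongPertStatement := by
  intro ϖ hϖ hϖ0 c hc
  -- bounds for `ϖ` on the ball of radius `11`
  have hK : IsCompact (closedBall (0 : E3) 11) := isCompact_closedBall _ _
  obtain ⟨M, hM⟩ := hK.exists_bound_of_continuousOn hϖ.continuous.continuousOn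
  obtain ⟨L, hL⟩ := hK.exists_bound_of_continuousOn (hϖ.continuous_fderiv (by simp)).continuousOn
  have hM0 : 0 ≤ M := (norm_nonneg _).trans (hM 0 (by simp))
  have hL0 : 0 ≤ L := (norm_nonneg _).trans (hL 0 (by simp))
  set ε : ℝ := min (min (1 / (2 * (M + 1))) (1 / (2 * (L + 1)))) (c / 16) with hε
  have hεp : 0 < ε := by positivity
  have hεM : ε * M ≤ 1 / 2 := by
    have h1 : ε ≤ 1 / (2 * (M + 1)) := (min_le_left _ _).trans (min_le_left _ _)
    calc ε * M ≤ 1 / (2 * (M + 1)) * (M + 1) := by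
          refine mul_le_mul h1 (by linarith) hM0 (by positivity)
      _ = 1 / 2 := by field_simp
  have hεL : ε * L ≤ 1 / 2 := by
    have h1 : ε ≤ 1 / (2 * (L + 1)) := (min_le_left _ _).trans (min_le_right _ _)
    calc ε * L ≤ 1 / (2 * (L + 1)) * (L + 1) := by
          refine mul_le_mul h1 (by linarith) hL0 (by positivity)
      _ = 1 / 2 := by field_simp
  have hεc : ε ≤ c / 16 := min_le_right _ _
  refine ⟨ε, hεp, fun ψ θ hψ X a hX _ hS v hv hmax => ?_⟩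
  -- notation
  set Y : E2 → E3 := fun b => θ (X b) with hY
  have hθc : ContDiff ℝ 2 θ := contDiff_infty.1 hψ.smooth' 2
  have hψc : ContDiff ℝ 2 ψ := contDiff_infty.1 hψ.smooth 2
  have hX2 : ContDiffAt ℝ 2 X a := contDiffAt_infty.1 hX 2
  have hY2 : ContDiffAt ℝ 2 Y a := hθc.contDiffAt.comp a hX2
  have hψY : ψ ∘ Y = X := funext fun b => hψ.right (X b)
  set A : E3 →L[ℝ] E3 := fderiv ℝ ψ (Y a) with hA
  set B : E3 →L[ℝ] E3 := fderiv ℝ θ (X a) with hB
  have hψd : ∀ y, DifferentiableAt ℝ ψ y := fun y => (hψc.differentiable (by simp)) y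
  have hθd : ∀ y, DifferentiableAt ℝ θ y := fun y => (hθc.differentiable (by simp)) y
  have hBA : ∀ w, B (A w) = w := by
    intro w
    have h1 : θ ∘ ψ = id := funext hψ.left
    have h2 := fderiv_comp (𝕜 := ℝ) (Y a) (hθd (ψ (Y a))) (hψd (Y a))
    rw [h1, fderiv_id] at h2
    have h3 : ψ (Y a) = X a := hψ.right (X a)
    rw [h3] at h2
    exact (DFunLike.congr_fun h2 w).symm
  have hAB : ∀ w, A (B w) = w := by
    intro w
    have h1 : ψ ∘ θ = id := funext hψ.right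
    have h2 := fderiv_comp (𝕜 := ℝ) (X a) (hψd (θ (X a))) (hθd (X a))
    rw [h1, fderiv_id] at h2
    exact (DFunLike.congr_fun h2 w).symm
  have hDY : ∀ u, fderiv ℝ Y a u = B (fderiv ℝ X a u) := by
    intro u
    have h2 := fderiv_comp (𝕜 := ℝ) a (hθd (X a)) (hX2.differentiableAt (by simp))
    exact DFunLike.congr_fun h2 u
  -- first order
  have hg2 : ContDiffAt ℝ 2 (fun b => ⟪v, Y b⟫) a := contDiffAt_const.inner ℝ hY2
  have hfirst : ∀ u, ⟪v, fderiv ℝ Y a u⟫ = 0 := by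
    intro u
    have h1 : fderiv ℝ (fun b => ⟪v, Y b⟫) a = 0 := hmax.fderiv_eq_zero
    have h2 : HasFDerivAt (fun b => ⟪v, Y b⟫) ((innerSL ℝ v).comp (fderiv ℝ Y a)) a :=
      (innerSL ℝ v).hasFDerivAt.comp a (hY2.differentiableAt (by simp)).hasFDerivAt
    rw [h2.fderiv] at h1
    exact DFunLike.congr_fun h1 u
  -- the covector
  set α : E3 →L[ℝ] ℝ := (innerSL ℝ v).comp B with hα
  have hαA : ∀ w, α (A w) = ⟪v, w⟫ := fun w => by
    simp only [hα, ContinuousLinearMap.comp_apply, hBA]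
    rfl
  have hα0 : α ≠ 0 := by
    intro h
    have h1 := hαA v
    rw [h] at h1
    have h2 : ⟪v, v⟫ = 0 := by
      rw [← h1]
      rfl
    exact hv (inner_self_eq_zero.1 h2)
  obtain ⟨u, hu1, hu2⟩ := hS α hα0 (fun u => by
    simp only [hα, ContinuousLinearMap.comp_apply]
    rw [← hDY]
    exact hfirst u)
  have hsecond : ⟪v, D2 Y a u u⟫ ≤ 0 := by
    rw [← inner_D2 hY2]
    exact D2_nonpos_of_isLocalMax hg2 hmax u
  -- second order relation
  have hrel : D2 X a u u = D2 ψ (Y a) (fderiv ℝ Y a u) (fderiv ℝ Y a u) + A (D2 Y a u u) := by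
    have h := D2_comp (ψ := ψ) (Y := Y) (a := a) hψc.contDiffAt hY2 u
    rw [hψY] at h
    exact h
  have hrel2 : α (D2 X a u u)
      = α (D2 ψ (Y a) (fderiv ℝ Y a u) (fderiv ℝ Y a u)) + ⟪v, D2 Y a u u⟫ := by
    rw [hrel, map_add, hαA]
  have hle : α (D2 X a u u) ≤ α (D2 ψ (Y a) (fderiv ℝ Y a u) (fderiv ℝ Y a u)) := by
    rw [hrel2]
    linarith
  rcases le_or_gt ‖Y a‖ 10 with hcase | hcase
  · -- near
    have hYa11 : Y a ∈ closedBall (0 : E3) 11 := by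
      rw [mem_closedBall, dist_zero_right]
      linarith
    have hϖM : ϖ (Y a) ≤ M := (le_abs_self _).trans (hM _ hYa11)
    have hεϖ : ε * ϖ (Y a) ≤ 1 / 2 :=
      (mul_le_mul_of_nonneg_left hϖM hεp.le).trans hεM
    have hBn : ∀ w, ‖B w‖ ≤ 2 * ‖w‖ := by
      intro w
      have h1 : ‖A (B w) - B w‖ ≤ 1 / 2 * ‖B w‖ := by
        have h2 := (fderiv ℝ ψ (Y a) - ContinuousLinearMap.id ℝ E3).le_opNorm (B w)
        have h3 := hψ.b1 (Y a)
        calc ‖A (B w) - B w‖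
            = ‖(fderiv ℝ ψ (Y a) - ContinuousLinearMap.id ℝ E3) (B w)‖ := rfl
          _ ≤ ‖fderiv ℝ ψ (Y a) - ContinuousLinearMap.id ℝ E3‖ * ‖B w‖ := h2
          _ ≤ 1 / 2 * ‖B w‖ :=
            mul_le_mul_of_nonneg_right (h3.trans hεϖ) (norm_nonneg _)
      rw [hAB] at h1
      have h2 : ‖B w‖ ≤ ‖w‖ + ‖w - B w‖ := by
        have := norm_sub_le w (w - B w)
        simpa using this
      linarith
    -- comparison of the weights
    have hxa : ‖X a - Y a‖ ≤ ε * ϖ (Y a) := by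
      have := hψ.b0 (Y a)
      rwa [show ψ (Y a) = X a from hψ.right (X a)] at this
    have hXa11 : X a ∈ closedBall (0 : E3) 11 := by
      rw [mem_closedBall, dist_zero_right]
      have := norm_sub_norm_le (X a) (Y a)
      linarith
    have hlip : |ϖ (Y a) - ϖ (X a)| ≤ L * ‖Y a - X a‖ := by
      have := (convex_closedBall (0 : E3) 11).norm_image_sub_le_of_norm_fderiv_le
        (f := ϖ) (C := L) (x := X a) (y := Y a)
        (fun x _ => (hϖ.differentiable (by simp)) x) (fun x hx => hL x hx) hXa11 hYa11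
      simpa using this
    have hcomp : ϖ (Y a) ≤ 2 * ϖ (X a) := by
      have h1 := (le_abs_self _).trans hlip
      rw [norm_sub_rev] at h1
      have h2 : L * ‖X a - Y a‖ ≤ L * (ε * ϖ (Y a)) := mul_le_mul_of_nonneg_left hxa hL0
      have h3 : L * (ε * ϖ (Y a)) ≤ 1 / 2 * ϖ (Y a) := by
        calc L * (ε * ϖ (Y a)) = (ε * L) * ϖ (Y a) := by ring
          _ ≤ 1 / 2 * ϖ (Y a) := mul_le_mul_of_nonneg_right hεL (hϖ0 _)
      linarith
    have hD2 : α (D2 ψ (Y a) (fderiv ℝ Y a u) (fderiv ℝ Y a u))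
        ≤ 8 * ε * (ϖ (X a) * ‖α‖ * ‖fderiv ℝ X a u‖ ^ 2) := by
      have h1 : ‖D2 ψ (Y a) (fderiv ℝ Y a u) (fderiv ℝ Y a u)‖
          ≤ ε * ϖ (Y a) * ‖fderiv ℝ Y a u‖ * ‖fderiv ℝ Y a u‖ := by
        unfold D2
        refine (ContinuousLinearMap.le_opNorm₂ _ _ _).trans ?_
        gcongr
        exact hψ.b2 (Y a)
      have h2 : ‖fderiv ℝ Y a u‖ ≤ 2 * ‖fderiv ℝ X a u‖ := by
        rw [hDY]
        exact hBn _
      have h3 : ε * ϖ (Y a) * ‖fderiv ℝ Y a u‖ * ‖fderiv ℝ Y a u‖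
          ≤ ε * (2 * ϖ (X a)) * (2 * ‖fderiv ℝ X a u‖) * (2 * ‖fderiv ℝ X a u‖) := by
        have := hϖ0 (X a)
        gcongr
      calc α (D2 ψ (Y a) (fderiv ℝ Y a u) (fderiv ℝ Y a u))
          ≤ ‖α‖ * ‖D2 ψ (Y a) (fderiv ℝ Y a u) (fderiv ℝ Y a u)‖ :=
            (le_abs_self _).trans (α.le_opNorm _)
        _ ≤ ‖α‖ * (ε * (2 * ϖ (X a)) * (2 * ‖fderiv ℝ X a u‖) * (2 * ‖fderiv ℝ X a u‖)) :=
            mul_le_mul_of_nonneg_left (h1.trans h3) (norm_nonneg _)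
        _ = 8 * ε * (ϖ (X a) * ‖α‖ * ‖fderiv ℝ X a u‖ ^ 2) := by ring
    have hT0 : 0 ≤ ϖ (X a) * ‖α‖ * ‖fderiv ℝ X a u‖ ^ 2 := by
      have := hϖ0 (X a)
      positivity
    have h5 : 8 * ε * (ϖ (X a) * ‖α‖ * ‖fderiv ℝ X a u‖ ^ 2)
        ≤ 1 / 2 * (c * ϖ (X a) * ‖α‖ * ‖fderiv ℝ X a u‖ ^ 2) := by
      calc 8 * ε * (ϖ (X a) * ‖α‖ * ‖fderiv ℝ X a u‖ ^ 2)
          ≤ 8 * (c / 16) * (ϖ (X a) * ‖α‖ * ‖fderiv ℝ X a u‖ ^ 2) :=
            mul_le_mul_of_nonneg_right (by linarith) hT0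
        _ = _ := by ring
    linarith
  · -- far
    have hev : ∀ᶠ y in 𝓝 (Y a), ψ y = y := by
      have h1 : ∀ᶠ y in 𝓝 (Y a), 10 < ‖y‖ := continuous_norm.continuousAt.eventually (lt_mem_nhds hcase)
      filter_upwards [h1] with y hy
      exact hψ.far y hy.le
    have hev1 : fderiv ℝ ψ =ᶠ[𝓝 (Y a)] fun _ => ContinuousLinearMap.id ℝ E3 := by
      have h1 : ψ =ᶠ[𝓝 (Y a)] id := hev
      filter_upwards [h1.fderiv (𝕜 := ℝ)] with y hy
      rw [hy, fderiv_id]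
    have hz : D2 ψ (Y a) (fderiv ℝ Y a u) (fderiv ℝ Y a u) = 0 := by
      unfold D2
      rw [hev1.fderiv_eq]
      simp
    rw [hz, map_zero] at hle
    linarith

theorem escapePert : EscapePertStatement := by
  intro ϖ hϖ hϖ0 ε ψ θ hψ M _ f p hf hp hesc v hv hmax
  obtain ⟨κ, hκ, hfreq⟩ := hesc v hv
  have hψp : ψ (f p) = f p := by
    have := hψ.b0 (f p)
    rw [hp, mul_zero] at this
    exact sub_eq_zero.1 (norm_le_zero_iff.1 this)
  have hθp : θ (f p) = f p := by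
    have := hψ.left (f p)
    rwa [hψp] at this
  obtain ⟨C, hC⟩ := hψ.flat
  -- `ϖ` is `o(‖z - q‖)`
  have hmin : IsLocalMin ϖ (f p) := Eventually.of_forall fun x => by rw [hp]; exact hϖ0 x
  have hd : HasFDerivAt ϖ (0 : E3 →L[ℝ] ℝ) (f p) := by
    have h1 := ((hϖ.differentiable (by simp)) (f p)).hasFDerivAt
    rwa [hmin.fderiv_eq_zero] at h1
  -- choose the constant
  set η : ℝ := min 1 (min (κ / (16 * (‖v‖ + 1))) (1 / 2)) / (|C| + 1) with hη
  have hη0 : 0 < η := by positivity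
  have hη1 : η ≤ 1 := by
    rw [hη, div_le_one (by positivity)]
    have := abs_nonneg C
    exact (min_le_left _ _).trans (by linarith)
  have hCη : |C| * η ≤ min (κ / (16 * (‖v‖ + 1))) (1 / 2) := by
    have h1 : |C| * η ≤ (|C| + 1) * η := mul_le_mul_of_nonneg_right (by linarith) hη0.le
    have h2 : (|C| + 1) * η = min 1 (min (κ / (16 * (‖v‖ + 1))) (1 / 2)) := by
      rw [hη]
      field_simp
    rw [h2] at h1
    exact h1.trans (min_le_right _ _)
  have hsmall : ∀ᶠ z in 𝓝 (f p), ϖ z ≤ η * ‖z - f p‖ := by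
    have h1 := hd.isLittleO.def hη0
    filter_upwards [h1] with z hz
    simp only [hp, sub_zero, zero_apply] at hz
    exact (le_abs_self _).trans hz
  have hone : ∀ᶠ z in 𝓝 (f p), ‖z - f p‖ ≤ 1 := by
    filter_upwards [closedBall_mem_nhds (f p) one_pos] with z hz
    rwa [mem_closedBall, dist_eq_norm] at hz
  have hθc : Tendsto θ (𝓝 (f p)) (𝓝 (f p)) := by
    have := hψ.smooth'.continuous.continuousAt (x := f p)
    rwa [ContinuousAt, hθp] at this
  have hall := (hf.continuousAt (x := p)).tendsto.eventually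
    (hθc.eventually (hsmall.and hone))
  have hmax' : ∀ᶠ q in 𝓝 p, ⟪v, θ (f q)⟫ ≤ ⟪v, θ (f p)⟫ := hmax
  obtain ⟨p', ⟨hp1, hp2⟩, ⟨hz1, hz2⟩, hp3⟩ := (hfreq.and_eventually (hall.and hmax')).exists
  set y : E3 := f p' with hy
  set z : E3 := θ y with hz
  have hyz : ψ z = y := hψ.right y
  have hd1 : ‖y - z‖ ≤ |C| * η * ‖z - f p‖ ^ 3 := by
    have h1 := hC z
    rw [hyz] at h1
    have hn := norm_nonneg (z - f p)
    have h2 : ϖ z ^ 3 ≤ (η * ‖z - f p‖) ^ 3 := pow_le_pow_left₀ (hϖ0 z) hz1 3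
    have h3 : (η * ‖z - f p‖) ^ 3 ≤ η * ‖z - f p‖ ^ 3 := by
      rw [mul_pow]
      refine mul_le_mul_of_nonneg_right ?_ (by positivity)
      calc η ^ 3 = η * (η * η) := by ring
        _ ≤ η * (1 * 1) := by gcongr
        _ = η := by ring
    have h4 : 0 ≤ ϖ z ^ 3 := pow_nonneg (hϖ0 z) 3
    calc ‖y - z‖ ≤ C * ϖ z ^ 3 := h1
      _ ≤ |C| * ϖ z ^ 3 := mul_le_mul_of_nonneg_right (le_abs_self C) h4
      _ ≤ |C| * (η * ‖z - f p‖ ^ 3) :=
        mul_le_mul_of_nonneg_left (h2.trans h3) (abs_nonneg C)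
      _ = _ := by ring
  have hhalf : ‖y - z‖ ≤ 1 / 2 * ‖z - f p‖ := by
    have hn := norm_nonneg (z - f p)
    have h1 : ‖z - f p‖ ^ 3 ≤ ‖z - f p‖ := by
      calc ‖z - f p‖ ^ 3 = ‖z - f p‖ * (‖z - f p‖ * ‖z - f p‖) := by ring
        _ ≤ ‖z - f p‖ * (1 * 1) := by gcongr
        _ = _ := by ring
    calc ‖y - z‖ ≤ |C| * η * ‖z - f p‖ ^ 3 := hd1
      _ ≤ 1 / 2 * ‖z - f p‖ := by
        refine mul_le_mul (hCη.trans (min_le_right _ _)) h1 (by positivity) (by norm_num)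
  have hzy : ‖z - f p‖ ≤ 2 * ‖y - f p‖ := by
    have h1 : ‖z - f p‖ ≤ ‖y - f p‖ + ‖y - z‖ := by
      have h2 : z - f p = (y - f p) - (y - z) := by abel
      rw [h2]
      exact norm_sub_le _ _
    linarith
  have hd2 : ‖y - z‖ ≤ κ / (2 * (‖v‖ + 1)) * ‖y - f p‖ ^ 3 := by
    calc ‖y - z‖ ≤ |C| * η * ‖z - f p‖ ^ 3 := hd1
      _ ≤ κ / (16 * (‖v‖ + 1)) * (2 * ‖y - f p‖) ^ 3 := by
        refine mul_le_mul (hCη.trans (min_le_left _ _)) ?_ (by positivity) (by positivity)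
        exact pow_le_pow_left₀ (norm_nonneg _) hzy 3
      _ = κ / (2 * (‖v‖ + 1)) * ‖y - f p‖ ^ 3 := by
        field_simp
        ring
  have hpos : 0 < ‖y - f p‖ ^ 3 := by
    have : y - f p ≠ 0 := sub_ne_zero.2 hp2
    positivity
  have hin : ⟪v, y - z⟫ ≤ κ / 2 * ‖y - f p‖ ^ 3 := by
    calc ⟪v, y - z⟫ ≤ ‖v‖ * ‖y - z‖ := real_inner_le_norm _ _
      _ ≤ (‖v‖ + 1) * (κ / (2 * (‖v‖ + 1)) * ‖y - f p‖ ^ 3) := by
        refine mul_le_mul (by linarith) hd2 (norm_nonneg _) (by positivity)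
      _ = κ / 2 * ‖y - f p‖ ^ 3 := by
        field_simp
  have hfin : 0 < ⟪v, z - f p⟫ := by
    have h2 : z - f p = (y - f p) - (y - z) := by abel
    rw [h2, inner_sub_right]
    have h3 : 0 < κ / 2 * ‖y - f p‖ ^ 3 := by positivity
    linarith
  rw [inner_sub_right] at hfin
  have h6 : ⟪v, θ (f p')⟫ ≤ ⟪v, f p⟫ := by
    have := hp3
    rwa [hθp] at this
  have h7 : ⟪v, z⟫ = ⟪v, θ (f p')⟫ := rfl
  linarith

end Pool.Agent.Tight.H19
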