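import Mathlib

/-!
# The theorem of Weierstrass in `C^m`, several variables

Every `C^m` function on a finite-dimensional real normed space `E` is the limit of polynomials,
uniformly on every ball together with the derivatives of order at most `m`.  The coordinates of
`E` are given by an injective continuous linear map `Φ : E → ℝ^ι`.
-/

open MeasureTheory Filter Topology Set Metric
open scoped ContDiff Convolution

namespace Pool.Agent.Tight.H19

section Poly

variable {ι : Type*} [Fintype ι] {E : Type*} [NormedAddCommGroup E] [NormedSpace ℝ E]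

/-- the convolution of a polynomial kernel with a function of compact support is a polynomial -/
theorem poly_integral [MeasurableSpace E] [BorelSpace E] (μ : Measure E)
    [IsFiniteMeasureOnCompacts μ] (Φ : E →L[ℝ] (ι → ℝ)) (B : MvPolynomial (ι ⊕ ι) ℝ)
    {g : E → ℝ} (hg : Continuous g) (hc : HasCompactSupport g) :
    ∃ P : MvPolynomial ι ℝ, ∀ x,
      ∫ y, MvPolynomial.eval (Sum.elim (Φ x) (Φ y)) B * g y ∂μ = MvPolynomial.eval (Φ x) P := by
  classical
  refine ⟨∑ d ∈ B.support, MvPolynomial.C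
    (B.coeff d * ∫ y, (∏ j, Φ y j ^ d (Sum.inr j)) * g y ∂μ) *
      ∏ i, MvPolynomial.X i ^ d (Sum.inl i), fun x => ?_⟩
  have hint : ∀ d : ι ⊕ ι →₀ ℕ,
      Integrable (fun y => (∏ j, Φ y j ^ d (Sum.inr j)) * g y) μ := by
    intro d
    refine Continuous.integrable_of_hasCompactSupport ?_ hc.mul_left
    fun_prop
  calc ∫ y, MvPolynomial.eval (Sum.elim (Φ x) (Φ y)) B * g y ∂μ
      = ∫ y, ∑ d ∈ B.support, (B.coeff d * ∏ i, Φ x i ^ d (Sum.inl i)) *
          ((∏ j, Φ y j ^ d (Sum.inr j)) * g y) ∂μ := by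
        congr 1
        ext y
        rw [MvPolynomial.eval_eq', Finset.sum_mul]
        refine Finset.sum_congr rfl fun d _ => ?_
        rw [Fintype.prod_sum_type]
        simp only [Sum.elim_inl, Sum.elim_inr]
        ring
    _ = ∑ d ∈ B.support, (B.coeff d * ∏ i, Φ x i ^ d (Sum.inl i)) *
          ∫ y, ((∏ j, Φ y j ^ d (Sum.inr j)) * g y) ∂μ := by
        rw [integral_finsetSum _ fun d _ => (hint d).const_mul _]
        exact Finset.sum_congr rfl fun d _ => integral_const_mul _ _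
    _ = _ := by
        simp only [map_sum, map_mul, MvPolynomial.eval_C, map_prod, map_pow, MvPolynomial.eval_X]
        refine Finset.sum_congr rfl fun d _ => ?_
        ring

end Poly

section Conv

variable {E : Type*} [NormedAddCommGroup E] [NormedSpace ℝ E] [FiniteDimensional ℝ E]
  [MeasurableSpace E] [BorelSpace E] (μ : Measure E) [μ.IsAddHaarMeasure]

theorem conv_fderiv {F : Type*} [NormedAddCommGroup F] [NormedSpace ℝ F] {κ : E → ℝ}
    (hκ : LocallyIntegrable κ μ) {G : E → F} (hG : ContDiff ℝ 1 G) (hc : HasCompactSupport G)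
    (x : E) :
    fderiv ℝ (fun x => ∫ t, κ t • G (x - t) ∂μ) x = ∫ t, κ t • fderiv ℝ G (x - t) ∂μ := by
  have h := hc.hasFDerivAt_convolution_right (ContinuousLinearMap.lsmul ℝ ℝ) hκ hG x
  exact h.fderiv

/-- the derivatives of a convolution -/
theorem conv_iter {F : Type*} [NormedAddCommGroup F] [NormedSpace ℝ F] {κ : E → ℝ}
    (hκ : LocallyIntegrable κ μ) {m : ℕ} {G : E → F} (hG : ContDiff ℝ m G)
    (hc : HasCompactSupport G) : ∀ j ≤ m,
    iteratedFDeriv ℝ j (fun x => ∫ t, κ t • G (x - t) ∂μ)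
      = fun x => ∫ t, κ t • iteratedFDeriv ℝ j G (x - t) ∂μ := by
  intro j
  induction j with
  | zero =>
    intro _
    ext1 x
    rw [iteratedFDeriv_zero_eq_comp]
    simp only [Function.comp, iteratedFDeriv_zero_eq_comp]
    have h := (continuousMultilinearCurryFin0 ℝ E F).symm.toContinuousLinearEquiv.integral_comp_comm
      (μ := μ) (fun t => κ t • G (x - t))
    simp only [map_smul] at h
    exact h.symm
  | succ j ih =>
    intro hj
    have h1 := ih (by omega)
    have hGj : ContDiff ℝ 1 (iteratedFDeriv ℝ j G) :=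
      hG.iteratedFDeriv_right (by exact_mod_cast (by omega : 1 + j ≤ m))
    ext1 x
    rw [iteratedFDeriv_succ_eq_comp_left, h1]
    simp only [Function.comp]
    rw [conv_fderiv μ hκ hGj (hc.iteratedFDeriv j) x]
    simp only [iteratedFDeriv_succ_eq_comp_left, Function.comp]
    let L : (E →L[ℝ] (E [×j]→L[ℝ] F)) ≃L[ℝ] (E [×(j + 1)]→L[ℝ] F) :=
      (continuousMultilinearCurryLeftEquiv ℝ (fun _ : Fin (j + 1) => E)
        F).symm.toContinuousLinearEquiv
    have h := ContinuousLinearEquiv.integral_comp_comm (𝕜 := ℝ) (μ := μ) L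
      (fun t => κ t • fderiv ℝ (iteratedFDeriv ℝ j G) (x - t))
    simp only [map_smul] at h
    exact h.symm

/-- uniform convergence of the convolutions with the powers of a peak function -/
theorem peak_unif {F : Type*} [NormedAddCommGroup F] [NormedSpace ℝ F] [CompleteSpace F]
    {G : E → F} (hG : Continuous G) (hc : HasCompactSupport G) {s : Set E} (hs : IsCompact s)
    {c : E → ℝ} (hcc : Continuous c) (h1 : ∀ y ∈ s, y ≠ 0 → c y < c 0) (h2 : ∀ y ∈ s, 0 ≤ c y)
    (h3 : 0 < c 0) (h0 : (0 : E) ∈ closure (interior s)) {ε : ℝ} (hε : 0 < ε) :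
    ∀ᶠ n : ℕ in atTop, ∀ x,
      ‖(∫ t in s, c t ^ n ∂μ)⁻¹ • ∫ t in s, c t ^ n • G (x - t) ∂μ - G x‖ < ε := by
  obtain ⟨C, hC⟩ := hG.bounded_above_of_compact_support hc
  have huc : UniformContinuous G := hc.uniformContinuous_of_continuous hG
  set γ : E → BoundedContinuousFunction E F := fun t =>
    BoundedContinuousFunction.ofNormedAddCommGroup (fun x => G (x - t))
      (hG.comp (continuous_id.sub continuous_const)) C (fun x => hC _) with hγ
  have hγc : Continuous γ := by
    rw [Metric.continuous_iff]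
    intro t η hη
    obtain ⟨δ, hδ, h⟩ := Metric.uniformContinuous_iff.1 huc (η / 2) (by positivity)
    refine ⟨δ, hδ, fun t' ht' => ?_⟩
    refine lt_of_le_of_lt ((BoundedContinuousFunction.dist_le (by positivity)).2 fun x => ?_)
      (half_lt_self hη)
    refine (h ?_).le
    rw [dist_sub_left]
    exact ht'
  have key := tendsto_setIntegral_pow_smul_of_unique_maximum_of_isCompact_of_continuousOn
    (μ := μ) hs hcc.continuousOn h1 h2 h3 h0 hγc.continuousOn
  have hev := Metric.tendsto_nhds.1 key ε hε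
  filter_upwards [hev] with n hn x
  refine lt_of_le_of_lt ?_ hn
  rw [dist_eq_norm]
  have hx := BoundedContinuousFunction.norm_coe_le_norm
    (((∫ t in s, c t ^ n ∂μ)⁻¹ • ∫ t in s, c t ^ n • γ t ∂μ) - γ 0) x
  refine le_trans (le_of_eq ?_) hx
  congr 1
  rw [BoundedContinuousFunction.sub_apply, BoundedContinuousFunction.smul_apply]
  have hi : IntegrableOn (fun t => c t ^ n • γ t) s μ :=
    ContinuousOn.integrableOn_compact hs ((hcc.pow n).smul hγc).continuousOn
  have e1 : (∫ t in s, c t ^ n • γ t ∂μ) x = ∫ t in s, c t ^ n • G (x - t) ∂μ := by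
    have := (BoundedContinuousFunction.evalCLM ℝ x).integral_comp_comm hi
    simp only [BoundedContinuousFunction.evalCLM_apply] at this
    rw [← this]
    rfl
  rw [e1]
  congr 1
  simp [hγ]

end Conv

/-- **Weierstrass in `C^m`.** -/
theorem weierstrass {ι : Type*} [Fintype ι] {E : Type*} [NormedAddCommGroup E] [NormedSpace ℝ E]
    [FiniteDimensional ℝ E] (Φ : E →L[ℝ] (ι → ℝ)) (hΦ : Function.Injective Φ) (m : ℕ)
    {f : E → ℝ} (hf : ContDiff ℝ m f) (r : ℝ) {ε : ℝ} (hε : 0 < ε) :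
    ∃ P : MvPolynomial ι ℝ, ∀ k ≤ m, ∀ x, ‖x‖ ≤ r →
      ‖iteratedFDeriv ℝ k (fun x => MvPolynomial.eval (Φ x) P) x - iteratedFDeriv ℝ k f x‖
        < ε := by
  classical
  borelize E
  set μ : Measure E := Measure.addHaar with hμ
  set r1 : ℝ := max r 0 + 1 with hr1
  have hr1' : 0 < r1 := by positivity
  have hrr : r < r1 := by have := le_max_left r 0; linarith
  -- localisation
  let χ : ContDiffBump (0 : E) := ⟨r1, r1 + 1, hr1', by linarith⟩
  set g : E → ℝ := fun x => χ x * f x with hg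
  have hgm : ContDiff ℝ m g := χ.contDiff.mul hf
  have hgc : HasCompactSupport g := χ.hasCompactSupport.mul_right
  have hgf : ∀ x, ‖x‖ < r1 → g =ᶠ[𝓝 x] f := by
    intro x hx
    have : ball (0 : E) r1 ∈ 𝓝 x := isOpen_ball.mem_nhds (by simpa using hx)
    filter_upwards [this] with y hy
    have h1 : χ y = 1 := χ.one_of_mem_closedBall (ball_subset_closedBall hy)
    simp only [hg, h1, one_mul]
  have hg0 : ∀ x, r1 + 1 ≤ ‖x‖ → g x = 0 := by
    intro x hx
    have h1 : χ x = 0 := χ.zero_of_le_dist (by simpa using hx)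
    simp only [hg, h1, zero_mul]
  -- the peak function
  set R0 : ℝ := r1 + (r1 + 1) with hR0
  have hR0' : 0 < R0 := by positivity
  set s : Set E := closedBall 0 R0 with hs
  have hsc : IsCompact s := isCompact_closedBall 0 R0
  set q : E → ℝ := fun t => ∑ i, Φ t i ^ 2 with hq
  have hqc : Continuous q := by fun_prop
  obtain ⟨M, hM0, hM⟩ : ∃ M : ℝ, 0 < M ∧ ∀ t ∈ s, q t ≤ M := by
    obtain ⟨M, hM⟩ := (hsc.image hqc).bddAbove
    exact ⟨max M 1, by positivity, fun t ht => (hM ⟨t, ht, rfl⟩).trans (le_max_left _ _)⟩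
  set c : E → ℝ := fun t => 1 - q t / M with hcdef
  have hcc : Continuous c := by fun_prop
  have hc0 : c 0 = 1 := by simp [hcdef, hq]
  have hq0 : ∀ t, t ≠ 0 → 0 < q t := by
    intro t ht
    have h1 : Φ t ≠ 0 := fun h => ht (hΦ (by rw [h, map_zero]))
    obtain ⟨i, hi⟩ := Function.ne_iff.1 h1
    exact Finset.sum_pos' (fun i _ => sq_nonneg _) ⟨i, Finset.mem_univ _, by
      have : Φ t i ≠ 0 := hi
      positivity⟩
  have hc1 : ∀ y ∈ s, y ≠ 0 → c y < c 0 := by
    intro y _ hy
    rw [hc0]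
    have := div_pos (hq0 y hy) hM0
    simp only [hcdef]
    linarith
  have hc2 : ∀ y ∈ s, 0 ≤ c y := by
    intro y hy
    have := (div_le_one hM0).2 (hM y hy)
    simp only [hcdef]
    linarith
  have h0s : (0 : E) ∈ closure (interior s) := by
    refine subset_closure ?_
    exact interior_mono (ball_subset_closedBall) (by
      rw [isOpen_ball.interior_eq]; exact mem_ball_self hR0')
  -- uniform convergence
  have hev : ∀ᶠ n : ℕ in atTop, ∀ k ∈ Finset.range (m + 1), ∀ x,
      ‖(∫ t in s, c t ^ n ∂μ)⁻¹ • ∫ t in s, c t ^ n • iteratedFDeriv ℝ k g (x - t) ∂μ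
        - iteratedFDeriv ℝ k g x‖ < ε := by
    rw [Finset.eventually_all]
    intro k hk
    have hk' : k ≤ m := by
      have := Finset.mem_range.1 hk
      omega
    exact peak_unif μ (hgm.continuous_iteratedFDeriv (by exact_mod_cast hk'))
      (hgc.iteratedFDeriv k) hsc hcc hc1 hc2 (by rw [hc0]; norm_num) h0s hε
  obtain ⟨n, hn⟩ := hev.exists
  set A : ℝ := (∫ t in s, c t ^ n ∂μ)⁻¹ with hA
  set κ : E → ℝ := s.indicator (fun t => c t ^ n) with hκ
  have hκi : LocallyIntegrable κ μ := by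
    refine Integrable.locallyIntegrable ?_
    rw [hκ, integrable_indicator_iff hsc.measurableSet]
    exact ContinuousOn.integrableOn_compact hsc (hcc.pow n).continuousOn
  have hind : ∀ {F : Type _} [NormedAddCommGroup F] [NormedSpace ℝ F] (G : E → F) (x : E),
      ∫ t, κ t • G (x - t) ∂μ = ∫ t in s, c t ^ n • G (x - t) ∂μ := by
    intro F _ _ G x
    rw [← integral_indicator hsc.measurableSet]
    congr 1
    ext1 t
    by_cases ht : t ∈ s
    · simp [hκ, ht]
    · simp [hκ, ht]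
  set u : E → ℝ := fun x => A • ∫ t, κ t • g (x - t) ∂μ with hu
  have hum : ContDiff ℝ m fun x => ∫ t, κ t • g (x - t) ∂μ :=
    hgc.contDiff_convolution_right (ContinuousLinearMap.lsmul ℝ ℝ) hκi hgm
  have huk : ∀ k ≤ m, ∀ x, iteratedFDeriv ℝ k u x
      = A • ∫ t in s, c t ^ n • iteratedFDeriv ℝ k g (x - t) ∂μ := by
    intro k hk x
    have h1 : iteratedFDeriv ℝ k u x
        = A • iteratedFDeriv ℝ k (fun x => ∫ t, κ t • g (x - t) ∂μ) x := by
      have e : u = A • (fun x => ∫ t, κ t • g (x - t) ∂μ) := rfl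
      rw [e]
      exact iteratedFDeriv_const_smul_apply ((hum.of_le (by exact_mod_cast hk)).contDiffAt)
    rw [h1, conv_iter μ hκi hgm hgc k hk]
    simp only
    rw [hind]
  -- the polynomial
  obtain ⟨P0, hP0⟩ := poly_integral μ Φ
    ((1 - MvPolynomial.C M⁻¹ * ∑ i, (MvPolynomial.X (Sum.inl i) - MvPolynomial.X (Sum.inr i)) ^ 2)
      ^ n) hgm.continuous hgc
  refine ⟨MvPolynomial.C A * P0, fun k hk x hx => ?_⟩
  have hx1 : ‖x‖ < r1 := lt_of_le_of_lt hx hrr
  have hpu : (fun x => MvPolynomial.eval (Φ x) (MvPolynomial.C A * P0)) =ᶠ[𝓝 x] u := by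
    have : ball (0 : E) r1 ∈ 𝓝 x := isOpen_ball.mem_nhds (by simpa using hx1)
    filter_upwards [this] with z hz
    have hz' : ‖z‖ < r1 := by simpa using hz
    simp only [map_mul, MvPolynomial.eval_C, hu, smul_eq_mul]
    congr 1
    rw [← hP0 z]
    have h1 : ∀ t, κ t * g (z - t) = c t ^ n * g (z - t) := by
      intro t
      by_cases ht : t ∈ s
      · simp [hκ, ht]
      · have h2 : R0 < ‖t‖ := by simpa [hs] using ht
        have h3 : r1 + 1 ≤ ‖z - t‖ := by
          have := norm_sub_norm_le t z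
          rw [norm_sub_rev] at this
          rw [hR0] at h2
          linarith
        rw [hg0 _ h3, mul_zero, mul_zero]
    simp only [h1]
    rw [← integral_sub_left_eq_self (fun t => c t ^ n * g (z - t)) μ z]
    congr 1
    ext1 y
    simp only [sub_sub_cancel, map_pow, map_sub, map_one, map_mul, MvPolynomial.eval_C, map_sum,
      MvPolynomial.eval_X, Sum.elim_inl, Sum.elim_inr, hcdef, hq, Pi.sub_apply]
    rw [div_eq_inv_mul]
  have e1 := hpu.iteratedFDeriv (𝕜 := ℝ) k
  have e2 := (hgf x hx1).iteratedFDeriv (𝕜 := ℝ) k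
  rw [e1.eq_of_nhds, ← e2.eq_of_nhds, huk k hk x]
  exact hn k (Finset.mem_range.2 (by omega)) x

theorem contDiff_eval {ι : Type*} [Fintype ι] {E : Type*} [NormedAddCommGroup E]
    [NormedSpace ℝ E] (Φ : E →L[ℝ] (ι → ℝ)) (P : MvPolynomial ι ℝ) {n : WithTop ℕ∞} :
    ContDiff ℝ n fun x => MvPolynomial.eval (Φ x) P := by
  simp only [MvPolynomial.eval_eq']
  refine ContDiff.sum fun d _ => contDiff_const.mul (contDiff_prod fun i _ => ?_)
  exact ((contDiff_apply ℝ ℝ i).comp Φ.contDiff).pow _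

/-- **Weierstrass in `C²`**, with the Fréchet derivatives. -/
theorem weierstrass_two {ι : Type*} [Fintype ι] {E : Type*} [NormedAddCommGroup E]
    [NormedSpace ℝ E] [FiniteDimensional ℝ E] (Φ : E →L[ℝ] (ι → ℝ)) (hΦ : Function.Injective Φ)
    {f : E → ℝ} (hf : ContDiff ℝ 2 f) (r : ℝ) {ε : ℝ} (hε : 0 < ε) :
    ∃ P : MvPolynomial ι ℝ, ∀ x, ‖x‖ ≤ r →
      |MvPolynomial.eval (Φ x) P - f x| < ε ∧
      ‖fderiv ℝ (fun x => MvPolynomial.eval (Φ x) P) x - fderiv ℝ f x‖ < ε ∧
      ‖fderiv ℝ (fderiv ℝ (fun x => MvPolynomial.eval (Φ x) P)) x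
        - fderiv ℝ (fderiv ℝ f) x‖ < ε := by
  obtain ⟨P, hP⟩ := weierstrass Φ hΦ 2 hf r hε
  refine ⟨P, fun x hx => ?_⟩
  set p : E → ℝ := fun x => MvPolynomial.eval (Φ x) P with hp
  have hpc : ContDiff ℝ 2 p := contDiff_eval Φ P
  have hk : ∀ k ≤ 2, iteratedFDeriv ℝ k p x - iteratedFDeriv ℝ k f x
      = iteratedFDeriv ℝ k (p - f) x := fun k hk => by
    have h1 := iteratedFDeriv_sub_apply (𝕜 := ℝ) (i := k) (x := x)
      ((hpc.of_le (by exact_mod_cast hk)).contDiffAt)
      ((hf.of_le (by exact_mod_cast hk)).contDiffAt)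
    exact h1.symm
  have hd : ∀ y, fderiv ℝ (p - f) y = fderiv ℝ p y - fderiv ℝ f y := fun y =>
    fderiv_sub ((hpc.differentiable (by norm_num)).differentiableAt)
      ((hf.differentiable (by norm_num)).differentiableAt)
  refine ⟨?_, ?_, ?_⟩
  · have h := hP 0 (by norm_num) x hx
    rw [hk 0 (by norm_num), norm_iteratedFDeriv_zero] at h
    simpa using h
  · have h := hP 1 (by norm_num) x hx
    rw [hk 1 (by norm_num), norm_iteratedFDeriv_one, hd] at h
    exact h
  · have h := hP 2 le_rfl x hx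
    rw [hk 2 le_rfl, ← norm_iteratedFDeriv_fderiv, norm_iteratedFDeriv_one] at h
    have e : fderiv ℝ (p - f) = fderiv ℝ p - fderiv ℝ f := by
      ext1 y
      rw [hd]
      rfl
    have h2 : fderiv ℝ (fderiv ℝ p - fderiv ℝ f) x
        = fderiv ℝ (fderiv ℝ p) x - fderiv ℝ (fderiv ℝ f) x :=
      fderiv_sub
        (((hpc.fderiv_right (m := 1) (by norm_num)).differentiable (by norm_num)).differentiableAt)
        (((hf.fderiv_right (m := 1) (by norm_num)).differentiable (by norm_num)).differentiableAt)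
    rw [e, h2] at h
    exact h

/-- **Weierstrass in `C^m`**, with a sequence of polynomials. -/
theorem weierstrass_seq {ι : Type*} [Fintype ι] {E : Type*} [NormedAddCommGroup E]
    [NormedSpace ℝ E] [FiniteDimensional ℝ E] (Φ : E →L[ℝ] (ι → ℝ)) (hΦ : Function.Injective Φ)
    (m : ℕ) {f : E → ℝ} (hf : ContDiff ℝ m f) (r : ℝ) :
    ∃ P : ℕ → MvPolynomial ι ℝ, ∀ k ≤ m,
      TendstoUniformlyOn (fun n => iteratedFDeriv ℝ k (fun x => MvPolynomial.eval (Φ x) (P n)))
        (iteratedFDeriv ℝ k f) atTop (closedBall 0 r) := by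
  choose P hP using fun n : ℕ => weierstrass Φ hΦ m hf r (ε := 1 / ((n : ℝ) + 1)) (by positivity)
  refine ⟨P, fun k hk => ?_⟩
  rw [Metric.tendstoUniformlyOn_iff]
  intro ε hε
  obtain ⟨N, hN⟩ := exists_nat_one_div_lt hε
  filter_upwards [eventually_ge_atTop N] with n hn x hx
  have h1 := hP n k hk x (by simpa using hx)
  rw [dist_comm, dist_eq_norm]
  refine h1.trans (lt_of_le_of_lt ?_ hN)
  exact one_div_le_one_div_of_le (by positivity) (by
    have : (N : ℝ) ≤ n := by exact_mod_cast hn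
    linarith)

/-- the same with `C²` data -/
theorem weierstrass_two_seq {ι : Type*} [Fintype ι] {E : Type*} [NormedAddCommGroup E]
    [NormedSpace ℝ E] [FiniteDimensional ℝ E] (Φ : E →L[ℝ] (ι → ℝ)) (hΦ : Function.Injective Φ)
    {f : E → ℝ} (hf : ContDiff ℝ 2 f) (r : ℝ) :
    ∃ P : ℕ → MvPolynomial ι ℝ, ∀ ε : ℝ, 0 < ε → ∃ N, ∀ n ≥ N, ∀ x, ‖x‖ ≤ r →
      |MvPolynomial.eval (Φ x) (P n) - f x| < ε ∧
      ‖fderiv ℝ (fun x => MvPolynomial.eval (Φ x) (P n)) x - fderiv ℝ f x‖ < ε ∧
      ‖fderiv ℝ (fderiv ℝ (fun x => MvPolynomial.eval (Φ x) (P n))) x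
        - fderiv ℝ (fderiv ℝ f) x‖ < ε := by
  choose P hP using fun n : ℕ => weierstrass_two Φ hΦ hf r (ε := 1 / ((n : ℝ) + 1))
    (by positivity)
  refine ⟨P, fun ε hε => ?_⟩
  obtain ⟨N, hN⟩ := exists_nat_one_div_lt hε
  refine ⟨N, fun n hn x hx => ?_⟩
  have h1 : 1 / ((n : ℝ) + 1) < ε := lt_of_le_of_lt
    (one_div_le_one_div_of_le (by positivity) (by
      have : (N : ℝ) ≤ n := by exact_mod_cast hn
      linarith)) hN
  obtain ⟨h2, h3, h4⟩ := hP n x hx
  exact ⟨h2.trans h1, h3.trans h1, h4.trans h1⟩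

end Pool.Agent.Tight.H19
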