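import Pool.Agent.Lib.MP_a31e1e_gt.Interfaces
import Pool.Agent.Lib.MP_a31e1e_gt.H19.Weier

/-!
# Module WEIER of project TIGHT
-/

open scoped ContDiff Topology
open Set Metric Filter

namespace Pool.Agent.Tight.H19

theorem weier : WeierStatement := by
  intro h b hh hb hbc δ hδ
  -- the support of `b`
  obtain ⟨R, hR⟩ := hbc.isCompact.isBounded.subset_closedBall (0 : E3)
  -- bounds for the derivatives of `b`
  have hbound : ∀ k : ℕ, ∃ C : ℝ, ∀ x, ‖iteratedFDeriv ℝ k b x‖ ≤ C := fun k =>
    (hb.continuous_iteratedFDeriv (m := k) (by exact_mod_cast le_top)).bounded_above_of_compact_support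
      (hbc.iteratedFDeriv k)
  choose C hC using hbound
  set D : ℝ := |C 0| + |C 1| + |C 2| + 1 with hD
  have hD1 : 1 ≤ D := by
    have := abs_nonneg (C 0); have := abs_nonneg (C 1); have := abs_nonneg (C 2)
    linarith
  have hCD : ∀ k ≤ 2, ∀ x, ‖iteratedFDeriv ℝ k b x‖ ≤ D := by
    intro k hk x
    have h0 := abs_nonneg (C 0); have h1 := abs_nonneg (C 1); have h2 := abs_nonneg (C 2)
    refine (hC k x).trans ?_
    interval_cases k
    · have := le_abs_self (C 0); linarith
    · have := le_abs_self (C 1); linarith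
    · have := le_abs_self (C 2); linarith
  have hε : 0 < δ / (4 * D) := by positivity
  -- the polynomial
  let Φ : E3 →L[ℝ] (Fin 3 → ℝ) := (EuclideanSpace.equiv (Fin 3) ℝ).toContinuousLinearMap
  have hΦ : Function.Injective Φ := (EuclideanSpace.equiv (Fin 3) ℝ).injective
  have hh2 : ContDiff ℝ 2 h := contDiff_infty.1 hh 2
  have hb2 : ContDiff ℝ 2 b := contDiff_infty.1 hb 2
  obtain ⟨P, hP⟩ := weierstrass Φ hΦ 2 (f := h) hh2 R hε
  refine ⟨fun x => MvPolynomial.eval (fun i => x i) P, ⟨P, fun x => rfl⟩, fun x k hk => ?_⟩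
  have hpc : ContDiff ℝ 2 fun x : E3 => MvPolynomial.eval (fun i => x i) P :=
    contDiff_eval (n := 2) Φ P
  by_cases hx : x ∈ tsupport b
  · have hxR : ‖x‖ ≤ R := by simpa using hR hx
    have hd : ContDiff ℝ 2 fun x : E3 => MvPolynomial.eval (fun i => x i) P - h x :=
      hpc.sub hh2
    have hdk : ∀ j ≤ 2, ‖iteratedFDeriv ℝ j
        (fun x : E3 => MvPolynomial.eval (fun i => x i) P - h x) x‖ ≤ δ / (4 * D) := by
      intro j hj
      have h1 := (hP j hj x hxR).le
      have h2 := iteratedFDeriv_sub_apply (𝕜 := ℝ) (i := j) (x := x)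
        (f := fun x : E3 => MvPolynomial.eval (fun i => x i) P) (g := h)
        ((hpc.of_le (by exact_mod_cast hj)).contDiffAt)
        ((hh2.of_le (by exact_mod_cast hj)).contDiffAt)
      have h3 : iteratedFDeriv ℝ j (fun x : E3 => MvPolynomial.eval (fun i => x i) P - h x) x
          = iteratedFDeriv ℝ j (fun x : E3 => MvPolynomial.eval (fun i => x i) P) x
            - iteratedFDeriv ℝ j h x := h2
      rw [h3]
      exact h1
    have hmul := norm_iteratedFDeriv_mul_le (𝕜 := ℝ) (n := k) (N := 2)
      hb2 hd x (by exact_mod_cast hk)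
    refine hmul.trans ?_
    calc ∑ i ∈ Finset.range (k + 1), (k.choose i : ℝ) * ‖iteratedFDeriv ℝ i b x‖ *
          ‖iteratedFDeriv ℝ (k - i)
            (fun x : E3 => MvPolynomial.eval (fun i => x i) P - h x) x‖
        ≤ ∑ i ∈ Finset.range (k + 1), (k.choose i : ℝ) * (D * (δ / (4 * D))) := by
          refine Finset.sum_le_sum fun i hi => ?_
          have hi' : i ≤ k := by
            have := Finset.mem_range.1 hi
            omega
          rw [mul_assoc]
          refine mul_le_mul_of_nonneg_left ?_ (by positivity)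
          exact mul_le_mul (hCD i (by omega) x) (hdk (k - i) (by omega)) (norm_nonneg _)
            (by linarith)
      _ = (∑ i ∈ Finset.range (k + 1), (k.choose i : ℝ)) * (δ / 4) := by
          rw [← Finset.sum_mul]
          congr 1
          field_simp
      _ = 2 ^ k * (δ / 4) := by
          congr 1
          exact_mod_cast Nat.sum_range_choose k
      _ ≤ 2 ^ 2 * (δ / 4) := by
          refine mul_le_mul_of_nonneg_right ?_ (by positivity)
          exact pow_le_pow_right₀ (by norm_num) hk
      _ = δ := by ring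
  · have hev : (fun x : E3 => b x * (MvPolynomial.eval (fun i => x i) P - h x)) =ᶠ[𝓝 x]
        fun _ => (0 : ℝ) := by
      have h1 : (tsupport b)ᶜ ∈ 𝓝 x := (isClosed_tsupport b).isOpen_compl.mem_nhds hx
      filter_upwards [h1] with y hy
      have : b y = 0 := image_eq_zero_of_notMem_tsupport hy
      simp [this]
    have h2 := (hev.iteratedFDeriv (𝕜 := ℝ) k).eq_of_nhds
    rw [h2]
    have h3 : iteratedFDeriv ℝ k (fun _ : E3 => (0 : ℝ)) x = 0 := by
      rw [iteratedFDeriv_fun_zero]
      rfl
    rw [h3, norm_zero]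
    exact hδ.le

end Pool.Agent.Tight.H19
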